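import Pool.Agent.R728.TN.Final

/-!
# The two-number of a compact symmetric space can be smaller than its total mod 2 Betti number

`M` is the six-dimensional quotient of `S² × S² × S²` by the group of order four of the sign changes
`(x, y, z) ↦ (a x, b y, a b z)`, `a, b = ± 1`.

* `#₂ M ≤ 8`: if `[x]` and `[y]` are antipodal then for each `i` the unit vectors `xᵢ` and `yᵢ` are
  equal up to sign or orthogonal, and the number of orthogonal pairs is `0` or `2`. So a maximal
  antipodal set consists of pairs of points over triples of lines of `ℝ³` which agree pairwise in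
  exactly one place, and there are at most four such triples.
* `dim H^*(M; ℤ₂) ≥ 12`: the diagonal rotations by `π` about two coordinate axes induce commuting
  isometric involutions of `M`, which have (at least) the twelve isolated common fixed points
  `[± e_i, e_j, e_k]`, `{i, j, k} = {1, 2, 3}`; Smith theory gives the inequality.
-/

set_option autoImplicit false

open scoped Manifold ContDiff
open Bundle Manifold
open Pool.Agent.Helper381 Pool.Agent.R728.TN

namespace Pool.Agent.Results.MP_efd99a_gt.EqualityFails

/-- There is a connected compact Riemannian symmetric space `M` of dimension six with two-number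
`#₂ M ≤ 8` and total mod 2 Betti number `dim H^*(M; ℤ₂) ≥ 12`. -/
theorem result :
    ∃ (E : Type) (_ : NormedAddCommGroup E) (_ : NormedSpace ℝ E) (_ : FiniteDimensional ℝ E)
      (M : Type) (_ : MetricSpace M) (_ : CompactSpace M) (_ : ConnectedSpace M)
      (_ : ChartedSpace E M) (_ : IsManifold 𝓘(ℝ, E) ∞ M)
      (_ : RiemannianBundle (fun x : M => TangentSpace 𝓘(ℝ, E) x))
      (_ : IsContMDiffRiemannianBundle 𝓘(ℝ, E) ∞ E (fun x : M => TangentSpace 𝓘(ℝ, E) x))
      (_ : IsRiemannianManifold 𝓘(ℝ, E) M),
      Module.finrank ℝ E = 6 ∧ IsSymmetric M ∧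
        twoNumber M ≤ 8 ∧ 12 ≤ totalBetti (ZMod 2) M := by
  letI := actG
  obtain ⟨N, i1, i2, i3, i4, g', p, hq⟩ := exists_N
  have hc : CompactSpace N := ⟨by
    have := isCompact_univ (X := MM) |>.image hq.covering.continuous
    rwa [Set.image_univ, hq.surjective.range_eq] at this⟩
  have hcon : ConnectedSpace N := hq.surjective.connectedSpace hq.covering.continuous
  letI : RiemannianBundle (fun x : N => TangentSpace II x) := ⟨g'.toRiemannianMetric⟩
  letI := mN g'
  haveI : IsRiemannianManifold II N := ⟨fun x y => rfl⟩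
  letI cs : ChartedSpace E6 N := i2
  have h1 : IsSymmetric N := symmetric_N hq
  have h2 : twoNumber N ≤ 8 := twoNumber_le_eight hq
  have h3 : 12 ≤ totalBetti (ZMod 2) N := twelve_le_totalBetti hq
  have key : ∀ (J : ModelWithCorners ℝ E6 E6) (_ : J = 𝓘(ℝ, E6)) (_ : IsManifold J ∞ N)
      (_ : RiemannianBundle (fun x : N => TangentSpace J x))
      (_ : IsContMDiffRiemannianBundle J ∞ E6 (fun x : N => TangentSpace J x))
      (_ : IsRiemannianManifold J N),
      ∃ (E : Type) (_ : NormedAddCommGroup E) (_ : NormedSpace ℝ E) (_ : FiniteDimensional ℝ E)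
      (M : Type) (_ : MetricSpace M) (_ : CompactSpace M) (_ : ConnectedSpace M)
      (_ : ChartedSpace E M) (_ : IsManifold 𝓘(ℝ, E) ∞ M)
      (_ : RiemannianBundle (fun x : M => TangentSpace 𝓘(ℝ, E) x))
      (_ : IsContMDiffRiemannianBundle 𝓘(ℝ, E) ∞ E (fun x : M => TangentSpace 𝓘(ℝ, E) x))
      (_ : IsRiemannianManifold 𝓘(ℝ, E) M),
      Module.finrank ℝ E = 6 ∧ IsSymmetric M ∧
        twoNumber M ≤ 8 ∧ 12 ≤ totalBetti (ZMod 2) M := by
    intro J hJ a1 a2 a3 a4
    subst hJ
    refine ⟨E6, inferInstance, inferInstance, inferInstance, N, inferInstance, hc, hcon, cs, a1,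
      a2, a3, a4, ?_, h1, h2, h3⟩
    simp
  exact key II II_eq i3 inferInstance inferInstance inferInstance

end Pool.Agent.Results.MP_efd99a_gt.EqualityFails
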